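import Mathlib
import Pool.Agent.Run7.h988.DR.Tower

/-!
# Deligne's conjecture for the abelian varieties `A = B ⊗ ρ` and their twists by Dirichlet characters

Let `B` be an abelian variety over `ℚ`, for instance an elliptic curve, `K/ℚ` a finite Galois extension
with group `G` and `ρ` a representation of `G` on a lattice of rank `m`. Then `A = B ⊗ ρ` is an abelian
variety over `ℚ` of dimension `m · dim B`, isogenous over `K` to the power `B ^ m`, with
`h¹(A) = h¹(B) ⊗ ρ` (up to replacing `ρ` by its dual); for example the Weil restrictions of `B` from subfields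
of `K` and their factors. The question asks whether for a Dirichlet character `ψ` the value at `1` of
`L(A, ψ, s) = L(B, ρ ⊗ ψ, s)`, divided by the period, is an element of `ℚ(ψ)` compatible with conjugation,
that is: for ONE `e ∈ ℚ(ψ)` the value for `τ ∘ ψ` is `τ e` times the period, for all embeddings `τ` of
`ℚ(ψ)` (`Holds`). In particular the values for the conjugates `τ ∘ ψ` vanish together.

`L χ` and `P χ` are the L-function `L(B, χ, s)` and the period of `h¹(B) ⊗ χ` for the irreducible complex
characters `χ` of `G`; L-functions and periods of sums are products. (For the abelian, totally real fields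
`F` of the question the period of `h¹(A) ⊗ ψ` is `Ω_A⁺` divided by a power of a Gauss sum; the finitely many
Euler factors omitted in `L_C` are nonzero numbers compatible with conjugation.)

Let `F₀ ⊆ F₁ ⊆ … ⊆ F_{n+1} ⊆ K` be Galois extensions of `ℚ` such that `F_{i+1}/F_i` is abelian for
`i ≤ n`, `N i = Gal(K/F_i)`, `ρ` trivial on `N (n + 1)` and `ψ` a character of `Gal(F₀/ℚ)` with values in
`E₁`. We suppose only that Deligne's conjecture is known, with coefficients in an extension `E'` of `E₁` by
roots of unity, for `B` over the subfields of `F_n`, twisted by Hecke characters of finite order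
(`Ind U κ`, `U ⊇ N n`); if `B` is an elliptic curve and `F_n` is totally real this is a theorem of Shimura
(if the base change is automorphic). Suppose that for each `i ≤ n` and each nontrivial character `λ` of
`Gal(F_{i+1}/F_i)` which occurs in `ρ`, with stabilizer `S` in `G`, the group `S/N_i` is nilpotent, or the
order at `1` of the L-function of `B` over `F_i` twisted by `λ` is at most one, or `S` is solvable and this
order is smaller than all prime divisors of `|S|`; and the same for the trivial character of `N 0` (this is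
no condition if `Gal(F₀/ℚ)` is nilpotent, for instance abelian), or that the conjecture holds over `E'` for
all representations of `Gal(F₀/ℚ)`. Then it holds for `A = B ⊗ ρ` and all `ψ`, vanishing values included.

For example let `F₀/ℚ` be any Galois extension, `F ⊆ F₀`, and let `ρ` be a representation of `Gal(F₁/ℚ)`,
`F₁/F₀` abelian. By Clifford's theorem the irreducible constituents of `ρ` are induced from the stabilizers
of the `λ`, but they are not monomial in general, and `L(A, ψ, 1)` is then only a quotient of values of Hecke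
twists of `B`, `0/0` if there are zeros; this is where the conditions on the orders are used.

Proof: `MP_cd171c_nt.AbelianTowers` explains the method (transfer of the family of L-functions from `G` to
the stabilizers, `Pool/Agent/Run7/h988/DR`, and the library `Pool/Agent/R389` of the starting files); here
the coefficients of the motive are rational and the twists by `ψ` are treated together.
-/

set_option autoImplicit false

open Filter Topology Pool.Agent.H541R3.ART

namespace Pool.Agent.Results.MP_21281f_nt.TwistedPowers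

/-- The L-functions `L χ` of the twists of an abelian variety over `ℚ` by the irreducible complex characters
`χ` of the group `G`, meromorphic and not identically zero near `c`, and their periods `P χ ≠ 0`. -/
structure Twists (G : Type) [Group G] (c : ℂ) where
  /-- the L-functions -/
  L : (G → ℂ) → ℂ → ℂ
  /-- the periods -/
  P : (G → ℂ) → ℂ
  /-- the L-functions are meromorphic and not identically zero near `c` -/
  mero : ∀ χ ∈ Irr G, MeromorphicAt (L χ) c ∧ meromorphicOrderAt (L χ) c ≠ ⊤
  /-- the periods are not zero -/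
  ne : ∀ χ ∈ Irr G, P χ ≠ 0

/-- `f` is the sum of `m χ` copies of `χ` over the irreducible complex characters `χ` of `G` -/
def IsSum {G : Type} [Group G] (f : G → ℂ) (m : (G → ℂ) → ℕ) : Prop :=
  ∀ g, f g = ∑ᶠ χ ∈ Irr G, (m χ : ℂ) * χ g

variable {G : Type} [Group G] {c : ℂ}

/-- **Deligne's conjecture** at `c` for the character `f` of `G` with values in the field `E`: for one
`e ∈ E`, at every embedding `τ` of `E`, the value at `c` of the L-function of `τ ∘ f` (the product of the
L-functions of the irreducible constituents) is `τ e` times the period of `τ ∘ f`. -/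
def Holds (D : Twists G c) (E : Type) [Field E] (f : G → E) : Prop :=
  ∃ e : E, ∀ (τ : E →+* ℂ) (m : (G → ℂ) → ℕ), IsSum (fun g => τ (f g)) m →
    Tendsto (fun s => ∏ᶠ χ ∈ Irr G, D.L χ s ^ m χ) (𝓝[≠] c) (𝓝 (τ e * ∏ᶠ χ ∈ Irr G, D.P χ ^ m χ))

open Classical in
/-- the function induced from a function on a subgroup: `(Ind f) g` is the sum of the values of `f` at
the conjugates `x⁻¹ g x ∈ H`, `x ∈ G`, divided by `|H|` -/
noncomputable def Ind {k : Type*} [Field k] (H : Subgroup G) (f : H → k) (g : G) : k :=
  (Nat.card H : k)⁻¹ * ∑ᶠ x : G, if h : x⁻¹ * g * x ∈ H then f ⟨x⁻¹ * g * x, h⟩ else 0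

/-- the stabilizer of a linear character of the normal subgroup `N` under conjugation -/
def Stabilizer {M : Type} [CommGroup M] {N : Subgroup G} [N.Normal] (lam : N →* M) : Subgroup G where
  carrier := {g | ∀ n : N, lam (MulAut.conjNormal g n) = lam n}
  one_mem' := fun n => by simp
  mul_mem' := fun {a b} ha hb n => by
    rw [map_mul, MulAut.mul_apply, ha, hb]
  inv_mem' := fun {a} ha n => by
    rw [← ha (MulAut.conjNormal a⁻¹ n), ← MulAut.mul_apply, ← map_mul, mul_inv_cancel, map_one,
      MulAut.one_apply]

/-- the order at `c`, at the embedding `τ` of `E'`, of the L-function of the representation induced from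
the linear character `lam` of `N` is less than `b` -/
def OrderBelow (D : Twists G c) {E' : Type} [Field E'] (τ : E' →+* ℂ) {N : Subgroup G}
    (lam : N →* E'ˣ) (b : ℕ) : Prop :=
  ∃ m : (G → ℂ) → ℕ, IsSum (Ind N (fun x => τ ((lam x : E'ˣ) : E'))) m ∧
    meromorphicOrderAt (fun s => ∏ᶠ χ ∈ Irr G, D.L χ s ^ m χ) c < b

/-- the condition on the linear character `lam` of the normal subgroup `N`, with stabilizer `S`: `S/N` is
nilpotent, or at one embedding the order of the L-function of `Ind lam` is at most one, or `S` is solvable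
and at one embedding this order is smaller than all prime divisors of `|S|` -/
def Condition (D : Twists G c) {E' : Type} [Field E'] {N : Subgroup G} [N.Normal]
    (lam : N →* E'ˣ) : Prop :=
  Group.IsNilpotent (Stabilizer lam ⧸ N.subgroupOf (Stabilizer lam)) ∨
  (∃ τ : E' →+* ℂ, OrderBelow D τ lam 2) ∨
  (Group.IsSolvable (Stabilizer lam) ∧ ∃ τ : E' →+* ℂ,
    ∀ p : ℕ, p.Prime → p ∣ Nat.card (Stabilizer lam) → OrderBelow D τ lam p)

/-- the twist of a rational representation by a linear character, as a representation -/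
lemma exists_twist {G : Type} [Group G] {E : Type} [Field E] [Algebra ℚ E] (ψ : G →* Eˣ)
    {V : Type} [AddCommGroup V] [Module ℚ V] [FiniteDimensional ℚ V] (ρ : Representation ℚ G V) :
    ∃ (d : ℕ) (σ : Representation E G (Fin d → E)),
      (∀ g, σ.character g = ((ψ g : Eˣ) : E) * algebraMap ℚ E (ρ.character g)) ∧
      ∀ g, ρ g = 1 → ψ g = 1 → σ g = 1 := by
  classical
  let b := Module.finBasis ℚ V
  let T : G →* Module.End E (Fin (Module.finrank ℚ V) → E) :=
    ((Matrix.toLinAlgEquiv' (R := E) (n := Fin (Module.finrank ℚ V))).toAlgHom.toRingHom.toMonoidHom.comp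
      ((RingHom.mapMatrix (algebraMap ℚ E)).toMonoidHom.comp
        ((LinearMap.toMatrixAlgEquiv b).toAlgHom.toRingHom.toMonoidHom.comp ρ)))
  have hT : ∀ g, T g = Matrix.toLin' ((LinearMap.toMatrix b b (ρ g)).map (algebraMap ℚ E)) := fun g => rfl
  let σ : Representation E G (Fin (Module.finrank ℚ V) → E) :=
    { toFun := fun g => ((ψ g : Eˣ) : E) • T g
      map_one' := by rw [map_one, map_one, Units.val_one, one_smul]
      map_mul' := fun g h => by rw [map_mul, map_mul, Units.val_mul, smul_mul_smul_comm] }
  refine ⟨_, σ, fun g => ?_, fun g h1 h2 => ?_⟩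
  · change LinearMap.trace E _ (((ψ g : Eˣ) : E) • T g) = _
    rw [map_smul, smul_eq_mul, hT, Matrix.trace_toLin'_eq]
    congr 1
    change _ = algebraMap ℚ E (LinearMap.trace ℚ V (ρ g))
    rw [LinearMap.trace_eq_matrix_trace ℚ b, Matrix.trace, Matrix.trace, map_sum]
    rfl
  · change ((ψ g : Eˣ) : E) • T g = 1
    rw [h2, Units.val_one, one_smul, hT, h1]
    have h3 : LinearMap.toMatrix b b (1 : Module.End ℚ V) = 1 := LinearMap.toMatrix_one b
    rw [h3, Matrix.map_one _ (map_zero _) (map_one _), Matrix.toLin'_one]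
    rfl

theorem result {G : Type} [Group G] [Finite G] {c : ℂ} (D : Twists G c)
    (E E' : Type) [Field E] [Field E'] [Algebra ℚ E] [Algebra.IsAlgebraic ℚ E] [Algebra E E']
    [Algebra.IsAlgebraic E E'] (ζ : E') (hζ : IsPrimitiveRoot ζ (Monoid.exponent G))
    (n : ℕ) (N : ℕ → Subgroup G) [∀ i, (N i).Normal]
    (hdesc : ∀ i, N (i + 1) ≤ N i) (hab : ∀ i, ⁅N i, N i⁆ ≤ N (i + 1))
    (hmon : ∀ (U : Subgroup G) (κ : U →* E'ˣ), N n ≤ U →
      Holds D E' (Ind U (fun u => ((κ u : E'ˣ) : E'))))
    {V : Type} [AddCommGroup V] [Module ℚ V] [FiniteDimensional ℚ V] (ρ : Representation ℚ G V)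
    (hρ : ∀ k ∈ N (n + 1), ∀ v, ρ k v = v)
    (hbase : Condition D (1 : N 0 →* E'ˣ) ∨
      ∀ (W : Type) [AddCommGroup W] [Module E' W] [FiniteDimensional E' W] (σ : Representation E' G W),
        (∀ k ∈ N 0, ∀ w, σ k w = w) → Holds D E' σ.character)
    (hlam : ∀ i ≤ n, ∀ lam : N i →* E'ˣ, lam ≠ 1 →
      (∀ k, ∀ hk : k ∈ N (i + 1), lam ⟨k, hdesc i hk⟩ = 1) →
      ∑ᶠ k : N i, algebraMap E E' (algebraMap ℚ E (ρ.character k)) * (((lam k)⁻¹ : E'ˣ) : E') ≠ 0 →
      Condition D lam)
    (ψ : G →* Eˣ) (hψ : ∀ k ∈ N 0, ψ k = 1) :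
    Holds D E (fun g => algebraMap ℚ E (ρ.character g) * ((ψ g : Eˣ) : E)) := by
  classical
  have hanti : Antitone N := antitone_nat_of_succ_le hdesc
  obtain ⟨d, σ, hσ, hσ1⟩ := exists_twist ψ ρ
  let L : (E →+* ℂ) → (G → ℂ) → ℂ → ℂ := fun _ => D.L
  let P : (E →+* ℂ) → (G → ℂ) → ℂ := fun _ => D.P
  by_cases hE : Nonempty (E →+* ℂ)
  swap
  · exact ⟨1, fun τ => absurd ⟨τ⟩ hE⟩
  obtain ⟨τE⟩ := hE
  obtain ⟨τ₀⟩ : Nonempty (E' →+* ℂ) := by
    let _ : Algebra E ℂ := τE.toAlgebra
    exact ⟨(IsAlgClosed.lift : E' →ₐ[E] ℂ).toRingHom⟩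
  have hfun : (fun g => algebraMap ℚ E (ρ.character g) * ((ψ g : Eˣ) : E)) = σ.character := by
    funext g
    rw [hσ, mul_comm]
  rw [hfun]
  have key : Pool.Agent.R389.Deligne L P c σ.character → Holds D E σ.character := fun h => h
  have hst : ∀ (M : Subgroup G) [M.Normal] (lam : M →* E'ˣ),
      Pool.Agent.R389.stb (Run7.h988.DR.lmu τ₀ lam) = Stabilizer lam := by
    intro M _ lam
    ext g
    constructor
    · intro hg n
      exact Run7.h988.DR.lam_inv τ₀ lam hg n
    · intro hg
      rw [Pool.Agent.R389.mem_stb]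
      refine MonoidHom.ext fun n => ?_
      rw [Pool.Agent.R389.cmu_apply]
      apply Units.ext
      have h1 := (Stabilizer lam).inv_mem hg n
      rw [Run7.h988.DR.lmu_apply, Run7.h988.DR.lmu_apply, h1]
  have hord : ∀ (M : Subgroup G) [M.Normal] (τ : E' →+* ℂ) (lam : M →* E'ˣ) (b : ℕ), OrderBelow D τ lam b →
      ∀ m : (G → ℂ) → ℕ, Pool.Agent.R389.IsDecomp
        (Pool.Agent.R389.ind M (fun x => ((Run7.h988.DR.lmu τ lam x : ℂˣ) : ℂ))) m →
        meromorphicOrderAt (fun s => ∏ᶠ η ∈ Irr G, D.L η s ^ m η) c < b := by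
    rintro M _ τ lam b ⟨m', hm', hlt⟩ m hm
    have hm'' : Pool.Agent.R389.IsDecomp
        (Pool.Agent.R389.ind M (fun x => ((Run7.h988.DR.lmu τ lam x : ℂˣ) : ℂ))) m' := hm'
    have h1 : (fun s => ∏ᶠ η ∈ Irr G, D.L η s ^ m η) = fun s => ∏ᶠ η ∈ Irr G, D.L η s ^ m' η := by
      funext s
      refine finprod_mem_congr rfl fun η hη => ?_
      have h2 := (hm.pr hη).symm.trans (hm''.pr hη)
      have h3 : m η = m' η := by exact_mod_cast h2
      rw [h3]
    rw [h1]
    exact hlt
  have hcnd : ∀ (M : Subgroup G) [M.Normal] (lam : M →* E'ˣ), Condition D lam →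
      Run7.h988.DR.Cnd (Run7.h988.DG.up E' L) c τ₀ lam := by
    intro M _ lam h
    have hT : ∀ (S S' : Subgroup G), S = S' → Group.IsNilpotent (S' ⧸ M.subgroupOf S') →
        Group.IsNilpotent (S ⧸ M.subgroupOf S) := by
      rintro S _ rfl h
      exact h
    rcases h with h | ⟨τ, h⟩ | ⟨hs, τ, h⟩
    · exact Or.inl (hT _ _ (hst M lam) h)
    · refine Or.inr (Or.inl ⟨τ, fun m hm => ?_⟩)
      have h1 := hord M τ lam 2 h m hm
      have h2 : ∀ a : WithTop ℤ, a < ((2 : ℕ) : WithTop ℤ) → a ≤ 1 := by
        intro a ha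
        induction a using WithTop.recTopCoe with
        | top => exact absurd ha (by simp)
        | coe a =>
          have h3 : (a : WithTop ℤ) < ((2 : ℤ) : WithTop ℤ) := ha
          have h4 : a < 2 := WithTop.coe_lt_coe.mp h3
          have h5 : a ≤ 1 := by omega
          exact_mod_cast h5
      exact h2 _ h1
    · rw [← hst M lam] at hs h
      exact Or.inr (Or.inr ⟨hs, τ, fun m hm p hp hpd => hord M τ lam p (h p hp hpd) m hm⟩)
  refine key (by
    have h := Run7.h988.DG.descend_rep (E' := E') (L := L) (P := P) (c := c) (τ₀.comp (algebraMap E E'))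
      (fun τ => D.ne) σ (fun d σ' hσ' => ?_)
    · exact h
    refine Run7.h988.DR.main_tower (L := Run7.h988.DG.up E' L) (P := Run7.h988.DG.up E' P) hζ
      (fun τ => D.mero) (fun τ => D.ne) n N hdesc hab hmon τ₀ σ' ?_ ?_ ?_
    · intro g k hk
      have h1 : σ (g * k) = σ g := by
        rw [map_mul, hσ1 k (LinearMap.ext fun v => hρ k hk v) (hψ k (hanti (Nat.zero_le _) hk)), mul_one]
      rw [hσ']
      change algebraMap E E' (LinearMap.trace E _ (σ (g * k))) = algebraMap E E' (LinearMap.trace E _ (σ g))
      rw [h1]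
    · exact hbase.imp (hcnd _ _) fun h W _ _ _ σ hσ => h W σ hσ
    · intro i hi lam hne h1 hocc
      refine hcnd _ _ (hlam i hi lam hne h1 ?_)
      rw [hσ'] at hocc
      intro h0
      apply hocc
      rw [← h0]
      refine finsum_congr fun k => ?_
      congr 1
      change algebraMap E E' (σ.character k) = _
      rw [hσ, hψ k (hanti (Nat.zero_le i) k.2), Units.val_one, one_mul])

end Pool.Agent.Results.MP_21281f_nt.TwistedPowers
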